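import Pool.Agent.H30.FA.TC

/-!
MP_6a7a6f_gt, row UPC: the phase cochain of the exterior square.
-/

namespace Pool.Agent.H70.FA

open Pool.Agent.H30.FA Pool.Agent.H58.FL

private theorem arg_ident {a b c a' b' c' A B C : ℂ} (ha : a ≠ 0) (hb : b ≠ 0) (hc : c ≠ 0)
    (ha' : a' ≠ 0) (hb' : b' ≠ 0) (hc' : c' ≠ 0) (hA : A ≠ 0) (hB : B ≠ 0) (hC : C ≠ 0) :
    (((b * b' * (starRingEnd ℂ) B).arg - (c * c' * (starRingEnd ℂ) C).arg +
      (a * a' * (starRingEnd ℂ) A).arg : ℝ) : Real.Angle) =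
    (((a * b * (starRingEnd ℂ) c).arg + (a' * b' * (starRingEnd ℂ) c').arg -
      (A * B * (starRingEnd ℂ) C).arg : ℝ) : Real.Angle) := by
  have s : ∀ z : ℂ, z ≠ 0 → (starRingEnd ℂ) z ≠ 0 := fun z hz => by
    simpa using hz
  simp only [Real.Angle.coe_add, Real.Angle.coe_sub]
  rw [Complex.arg_mul_coe_angle (mul_ne_zero hb hb') (s _ hB), Complex.arg_mul_coe_angle hb hb',
    Complex.arg_mul_coe_angle (mul_ne_zero hc hc') (s _ hC), Complex.arg_mul_coe_angle hc hc',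
    Complex.arg_mul_coe_angle (mul_ne_zero ha ha') (s _ hA), Complex.arg_mul_coe_angle ha ha',
    Complex.arg_mul_coe_angle (mul_ne_zero ha hb) (s _ hc), Complex.arg_mul_coe_angle ha hb,
    Complex.arg_mul_coe_angle (mul_ne_zero ha' hb') (s _ hc'), Complex.arg_mul_coe_angle ha' hb',
    Complex.arg_mul_coe_angle (mul_ne_zero hA hB) (s _ hC), Complex.arg_mul_coe_angle hA hB]
  simp only [Complex.arg_conj_coe_angle]
  abel

private theorem eq_of_angle {u v : ℝ} (h : (u : Real.Angle) = v) (hs : |u - v| < 2 * Real.pi) :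
    u = v := by
  rw [Real.Angle.angle_eq_iff_two_pi_dvd_sub] at h
  obtain ⟨k, hk⟩ := h
  have hp := Real.pi_pos
  have hk0 : k = 0 := by
    rw [hk, abs_mul, abs_of_pos (by positivity : (0 : ℝ) < 2 * Real.pi)] at hs
    have h1 : |(k : ℝ)| < 1 := by
      by_contra hcon
      rw [not_lt] at hcon
      nlinarith
    have h2 : |k| < 1 := by exact_mod_cast h1
    exact Int.abs_lt_one_iff.mp h2
  rw [hk0] at hk
  simp only [Int.cast_zero, mul_zero] at hk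
  linarith

theorem pf_UPC (hSPH : T_SPH) (hWDG : T_WDG) : T_UPC := by
  obtain ⟨s₀, hs₀, hS⟩ := hSPH (1 / 8) (by norm_num)
  have hpos : 0 < min (s₀ / 3) (1 / 8) := lt_min (by positivity) (by norm_num)
  refine ⟨min (s₀ / 3) (1 / 8), hpos, ?_⟩
  intro X d f f' K hf hK
  generalize hsdef : min (s₀ / 3) (1 / 8) = s at hpos hK
  have hs1 : 3 * s ≤ s₀ := by
    have := min_le_left (s₀ / 3) (1 / 8); rw [hsdef] at this; linarith
  have hs2 : s ≤ 1 / 8 := by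
    have := min_le_right (s₀ / 3) (1 / 8); rw [hsdef] at this; exact this
  -- local facts for a pair
  have key : ∀ S ∈ K, ∀ x ∈ S, ∀ y ∈ S,
      1 - s₀ ≤ ‖inner ℂ (f x) (f y)‖ ^ 2 ∧ 1 - s₀ ≤ ‖inner ℂ (f' x) (f' y)‖ ^ 2 ∧
      1 - s₀ ≤ ‖inner ℂ (wd (f x) (f' x)) (wd (f y) (f' y))‖ ^ 2 ∧
      inner ℂ (f x) (f y) ≠ 0 ∧ inner ℂ (f' x) (f' y) ≠ 0 ∧
      inner ℂ (wd (f x) (f' x)) (wd (f y) (f' y)) ≠ 0 ∧
      |(inner ℂ (f x) (f y) * inner ℂ (f' x) (f' y) *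
        (starRingEnd ℂ) (inner ℂ (wd (f x) (f' x)) (wd (f y) (f' y)))).arg| ≤
          Real.pi / 2 := by
    intro S hSK x hx y hy
    obtain ⟨k1, k2⟩ := hK S hSK x hx y hy
    obtain ⟨hx1, hx2, hx3⟩ := hf x
    obtain ⟨hy1, hy2, hy3⟩ := hf y
    obtain ⟨w1, w2, w3⟩ := hWDG d (f x) (f' x) (f y) (f' y) hx1 hx2 hx3 hy1 hy2 hy3
    obtain ⟨w1', -, -⟩ := hWDG d (f y) (f' y) (f y) (f' y) hy1 hy2 hy3 hy1 hy2 hy3
    obtain ⟨v1, v2⟩ := w3 s k2
    obtain ⟨v3, v4, v5⟩ := v2 k1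
    have nz : ∀ z : ℂ, 1 - 3 * s ≤ ‖z‖ ^ 2 → z ≠ 0 := by
      rintro z hz rfl
      rw [norm_zero] at hz
      norm_num at hz
      linarith
    refine ⟨by linarith, by linarith, by linarith, nz _ (by linarith), nz _ v3,
      nz _ (by linarith), ?_⟩
    rw [Complex.abs_arg_le_pi_div_two_iff]
    set α : ℂ := inner ℂ (f x) (f y) with hα
    set β : ℂ := inner ℂ (f' x) (f' y) with hβ
    set a : ℂ := inner ℂ (f x) (f' y) with ha
    set b : ℂ := inner ℂ (f' x) (f y) with hb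
    set D : ℂ := inner ℂ (wd (f x) (f' x)) (wd (f y) (f' y)) with hD
    have hD1 : ‖D‖ ≤ 1 := by
      have := norm_inner_le_norm (𝕜 := ℂ) (wd (f x) (f' x)) (wd (f y) (f' y))
      rw [w1, w1', one_mul] at this
      exact this
    have e1 : α * β = D + a * b := by rw [w2]; ring
    have e2 : α * β * (starRingEnd ℂ) D = ((‖D‖ ^ 2 : ℝ) : ℂ) + a * b * (starRingEnd ℂ) D := by
      rw [e1, add_mul, Complex.mul_conj, Complex.normSq_eq_norm_sq]
    have e3 : ‖a * b * (starRingEnd ℂ) D‖ ≤ s := by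
      rw [norm_mul, norm_mul, Complex.norm_conj]
      have h1 : ‖a‖ * ‖b‖ ≤ s := by
        have := two_mul_le_add_sq ‖a‖ ‖b‖
        nlinarith
      calc ‖a‖ * ‖b‖ * ‖D‖ ≤ s * 1 := mul_le_mul h1 hD1 (norm_nonneg _) hpos.le
        _ = s := mul_one s
    have e4 : -s ≤ (a * b * (starRingEnd ℂ) D).re := by
      have := (abs_le.mp ((Complex.abs_re_le_norm (a * b * (starRingEnd ℂ) D)).trans e3)).1
      exact this
    rw [e2, Complex.add_re, Complex.ofReal_re]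
    linarith
  refine ⟨fun x y => (inner ℂ (f x) (f y) * inner ℂ (f' x) (f' y) *
    (starRingEnd ℂ) (inner ℂ (wd (f x) (f' x)) (wd (f y) (f' y)))).arg / (2 * Real.pi), ?_⟩
  intro S hSK x hx y hy z hz
  obtain ⟨p1, p2, p3, p4, p5, p6, p7⟩ := key S hSK x hx y hy
  obtain ⟨q1, q2, q3, q4, q5, q6, q7⟩ := key S hSK y hy z hz
  obtain ⟨r1, r2, r3, -, -, -, -⟩ := key S hSK z hz x hx
  obtain ⟨-, -, -, r4, r5, r6, r7⟩ := key S hSK x hx z hz
  obtain ⟨hx1, hx2, hx3⟩ := hf x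
  obtain ⟨hy1, hy2, hy3⟩ := hf y
  obtain ⟨hz1, hz2, hz3⟩ := hf z
  have wn : ∀ u, ‖wd (f u) (f' u)‖ = 1 := fun u => by
    obtain ⟨h1, h2, h3⟩ := hf u
    exact (hWDG d (f u) (f' u) (f u) (f' u) h1 h2 h3 h1 h2 h3).1
  have t1 := hS (V d) (f x) (f y) (f z) hx1 hy1 hz1 p1 q1 r1
  have t2 := hS (V d) (f' x) (f' y) (f' z) hx2 hy2 hz2 p2 q2 r2
  have t3 := hS (EuclideanSpace ℂ (Fin d × Fin d)) (wd (f x) (f' x)) (wd (f y) (f' y))
    (wd (f z) (f' z)) (wn x) (wn y) (wn z) p3 q3 r3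
  have hp := Real.pi_gt_three
  have id := arg_ident p4 q4 r4 p5 q5 r5 p6 q6 r6
  have tri : ∀ {E : Type} [NormedAddCommGroup E] [InnerProductSpace ℂ E] (a b c : E),
      ar a b c = (inner ℂ a b * inner ℂ b c * (starRingEnd ℂ) (inner ℂ a c)).arg := by
    intro E _ _ a b c
    rw [ar, inner_conj_symm]
  rw [tri] at t1 t2 t3
  have fin := eq_of_angle id (by
    rw [abs_lt]
    rw [abs_le] at t1 t2 t3 p7 q7 r7
    constructor <;> linarith [t1.1, t1.2, t2.1, t2.2, t3.1, t3.2, p7.1, p7.2, q7.1, q7.2,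
      r7.1, r7.2])
  simp only [up, d1, tri]
  rw [← add_div, ← sub_div, ← sub_div, ← add_div, fin]

end Pool.Agent.H70.FA
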